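import Pool.Agent.J6H49.KT.Seq
import Pool.Agent.J6H49.KW.Main

/-!
# Tally hard sets of a prescribed density, and of no lower density
-/

set_option autoImplicit false

namespace Pool.Agent.J6H49.KT

open Pool.Agent.NPC Pool.Agent.H628R3.RO Filter Pool.Agent.J6H49.OP Pool.Agent.J6H49.IP
open Pool.Agent.J6H54.RO
open Pool.Agent.H620R2.Gauge (SAlg IsPSPACE)
open Pool.Agent.TH678.GC (join)
open Pool.Agent.TH678.RS (bt)
open Pool.Agent.Y626.WX (Cp cod exists_cp)
open Pool.Agent.J6H49.PHC (oracle far)
open Pool.Agent.J6H49.KW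

theorem exists_exp (P : Polynomial ℕ) : ∃ c : ℕ, 1 ≤ c ∧ ∀ᶠ n : ℕ in atTop, P.eval n ≤ n ^ c := by
  refine ⟨P.natDegree + 1, by omega, ?_⟩
  filter_upwards [eventually_ge_atTop (max 1 (P.eval 1))] with n hn
  have h1 : 1 ≤ n := (le_max_left _ _).trans hn
  have h2 : P.eval 1 ≤ n := (le_max_right _ _).trans hn
  refine (Pool.Agent.J6H7.RO.eval_le_pow _ h1).trans ?_
  rw [pow_succ, mul_comm]
  exact Nat.mul_le_mul_left _ h2

theorem main {α : ℕ → ℕ} (hα : Monotone α) (hα' : Tendsto α atTop atTop) {f : ℕ → ℕ}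
    (hf : Monotone f) (hf' : Tendsto f atTop atTop) (hfn : ∀ n, f n ≤ n) (C : Oracle) :
    ∃ (O : Oracle) (T : ℕ → Bool), NearlyCollapsed α O ∧ Contains O C ∧
      (∀ L, IsPSPACE O L → IsUP O L ∧ IsUP O Lᶜ ∧ IsP (join O (tally T)) L) ∧
      (∀ n, ((Finset.range (n + 1)).filter fun m => T m = true).card ≤ f n) ∧
      ∀ U : ℕ → Bool, (∀ L, IsUP O L → IsUP O Lᶜ → IsP (join O (tally U)) L) →
        ∃ c, ∃ᶠ n in atTop,
          f n ≤ c * ((Finset.range (n ^ c)).filter fun m => U m = true).card := by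
  classical
  obtain ⟨g, hg⟩ := Pool.Agent.H620R2.Gauge.CC.exists_enum
  obtain ⟨S, Φ, hc⟩ := exists_cp g (bt (slow2 α))
  obtain ⟨N, hN⟩ := exists_good (slow2_mono hα) (slow2_tendsto hα') hf'
  have hne : Nonempty Alg := ⟨⟨_, Pool.Agent.H620R2.Gauge.CC.const_polyTime [], 0⟩⟩
  obtain ⟨en, hen⟩ := exists_surjective_nat Alg
  choose cc hcc1 hcc2 using fun a : ℕ => exists_exp (((en a).p + qb (en a)).comp
    (Polynomial.X * Polynomial.X + Polynomial.X + Polynomial.C (a + 2)))
  obtain ⟨σ, hσ⟩ := exists_seq (((fun _ => 0), fun _ _ => true) : Dt)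
    (fun j σ => (exists_stage hfn hN en cc j
      (OL hc C (TT f N σ) (ZZ N σ) (N j))).choose) (by
      intro j σ σ' h
      have h1 := OL_congr (C := C) hc (TT_congr hN h) (ZZ_congr hN h)
      congr 2)
  set T := TT f N σ with hT
  set Z := ZZ N σ with hZ
  set O := OO hc C T Z with hO
  have hst : ∀ j, StT en cc f N j (OL hc C T Z (N j)) (σ j) := by
    intro j
    rw [hσ j]
    exact (exists_stage hfn hN en cc j (OL hc C (TT f N σ) (ZZ N σ) (N j))).choose_spec
  have hZj : ∀ a b j, Z a b (N j) = true ↔ (σ j).2 a b = true := by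
    intro a b j
    rw [hZ]
    unfold ZZ
    rw [decide_eq_true_eq]
    constructor
    · exact fun h => h j rfl
    · intro h j' hj'
      rw [← hN.mono.injective hj']
      exact h
  refine ⟨O, T, ?_, ⟨[false, true, false], fun x => rfl⟩,
    fun L hL => ⟨(isUP hg hc hL).1, (isUP hg hc hL).2, isP_tally hg hc hL⟩,
    TT_dens hN hf σ, fun U hU => ?_⟩
  · exact nearly hg hα hc (join (fun _ => false) (join C (DD hc C T Z)))
  · have hX := Pool.Agent.J6H49.ES.isPSPACE_of_isNP (isNP_XX (C := C) (T := T) (Z := Z) hc)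
    obtain ⟨V, ⟨M, hM⟩, hV⟩ := hU (XX Z) (isUP hg hc hX).1 (isUP hg hc hX).2
    obtain ⟨a, ha⟩ := hen M
    have hwd : Tendsto (fun j => wd f N j) atTop atTop := by
      have h1 : Tendsto (fun j => f (N j)) atTop atTop := hf'.comp hN.mono.tendsto_atTop
      rw [tendsto_atTop] at h1 ⊢
      intro b
      filter_upwards [h1 (2 * b)] with j hj
      unfold wd
      omega
    have hNt := hN.mono.tendsto_atTop
    by_contra hcon
    push Not at hcon
    have hcon' := hcon (16 * cc a)
    obtain ⟨j, hj1, hj2, hj3, hj4, hj5⟩ := ((eventually_gt_atTop a).and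
      ((eventually_ge_atTop (cc a)).and ((hwd.eventually_ge_atTop (4 * (cc a + 4))).and
        ((hNt.eventually (hcc2 a)).and (hNt.eventually hcon'))))).exists
    have hok : OKt en cc f N j a := by
      refine ⟨hj1, hj2, hcc1 a, hj3, ?_⟩
      rw [Polynomial.eval_comp] at hj4
      simp only [Polynomial.eval_add, Polynomial.eval_mul, Polynomial.eval_X,
        Polynomial.eval_C] at hj4
      rw [Polynomial.eval_add]
      have e1 : N j * N j + N j + a + 2 = N j * N j + N j + (a + 2) := by omega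
      rw [e1]
      exact hj4
    obtain ⟨Q, hQ1, hQ2, hQ3⟩ := (hst j).2 a hok
    have hQO : ∀ q ∈ Q, O q = OL hc C T Z (N j) q := by
      intro q hq
      rw [hO]
      refine OO_eq hc (R := N j ^ j) (fun s hs => hN.far j s hs) (hQ1 q hq) ?_
      intro i hi _ hprot
      exact hQ2 q hq ⟨_, hprot, enc_tp hfn hN (fun j' k => (hst j').1 k) hi⟩
    have hge := hN.ge j
    have hsmall : ((Finset.range (N j ^ cc a)).filter fun m => U m = true).card * (8 * cc a) ≤
        wd f N j := by
      have h1 : ((Finset.range (N j ^ cc a)).filter fun m => U m = true).card ≤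
          ((Finset.range (N j ^ (16 * cc a))).filter fun m => U m = true).card := by
        refine Finset.card_le_card fun m hm => ?_
        rw [Finset.mem_filter, Finset.mem_range] at hm ⊢
        refine ⟨hm.1.trans_le (Nat.pow_le_pow_right (by omega) (by omega)), hm.2⟩
      have h2 : 16 * cc a * ((Finset.range (N j ^ cc a)).filter fun m => U m = true).card ≤
          16 * cc a * ((Finset.range (N j ^ (16 * cc a))).filter fun m => U m = true).card :=
        Nat.mul_le_mul_left _ h1
      have h3 : wd f N j = f (N j) / 2 := rfl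
      have h4 : 16 * cc a * ((Finset.range (N j ^ cc a)).filter fun m => U m = true).card =
          2 * (((Finset.range (N j ^ cc a)).filter fun m => U m = true).card * (8 * cc a)) := by
        ring
      omega
    obtain ⟨b, hb⟩ := hQ3 O hQO U hsmall
    apply hb
    rw [← hZj, ← mem_XX (a := a) (b := b), ha, hM, Option.some.injEq]
    exact (hV _).symm

end Pool.Agent.J6H49.KT
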