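import Pool.Agent.J6H49.KW.Seq
import Pool.Agent.J6H49.SZ.Count

/-!
# A tally set of prescribed density
-/

set_option autoImplicit false

namespace Pool.Agent.J6H49.KT

open Pool.Agent.NPC Pool.Agent.H628R3.RO Filter Pool.Agent.J6H49.OP Pool.Agent.J6H49.IP
open Pool.Agent.J6H54.RO
open Pool.Agent.H620R2.Gauge (SAlg IsPSPACE)
open Pool.Agent.TH678.GC (join)
open Pool.Agent.TH678.RS (bt)
open Pool.Agent.Y626.WX (Cp)
open Pool.Agent.J6H49.PHC (oracle far)
open Pool.Agent.J6H49.KW
open Pool.Agent.J6H49.SZ (out_eq)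

/-- the number of the elements of the tally set chosen at the stage `j` -/
def wd (f N : ℕ → ℕ) (j : ℕ) : ℕ := f (N j) / 2

open Classical in
/-- the tally set given by the data -/
noncomputable def TT (f N : ℕ → ℕ) (σ : ℕ → Dt) (m : ℕ) : Bool :=
  decide (∃ j k, k < wd f N j ∧ m = N j ^ 3 + k * N j + (σ j).1 k)

/-- the properties of the sequence of the stages -/
structure Good (α f : ℕ → ℕ) (N : ℕ → ℕ) : Prop where
  mono : StrictMono N
  ge : ∀ j, j + 2 ≤ N j
  far : ∀ j s, N j ≤ s → N j ^ j < s ^ (bt α s + 1)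
  dbl : ∀ j, 2 * f (N j) ≤ f (N (j + 1))

theorem exists_good {α f : ℕ → ℕ} (hα : Monotone α) (hα' : Tendsto α atTop atTop)
    (hf' : Tendsto f atTop atTop) : ∃ N : ℕ → ℕ, Good α f N := by
  have h1 : ∀ j m : ℕ, ∃ n, m < n ∧ j + 2 ≤ n ∧
      (∀ s, n ≤ s → n ^ j < s ^ (bt α s + 1)) ∧ 2 * f m ≤ f n := by
    intro j m
    obtain ⟨n, h3⟩ := ((eventually_gt_atTop m).and
      ((eventually_ge_atTop (j + 2)).and ((far hα hα' j).and
        (hf'.eventually_ge_atTop (2 * f m))))).exists
    exact ⟨n, h3.1, h3.2.1, h3.2.2.1, h3.2.2.2⟩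
  choose G hG1 hG2 hG3 hG4 using h1
  set N : ℕ → ℕ := fun j => Nat.rec (G 0 0) (fun i n => G (i + 1) n) j with hN
  have hs : ∀ j, N (j + 1) = G (j + 1) (N j) := fun j => rfl
  have hform : ∀ j, ∃ m, N j = G j m := by
    intro j
    cases j with
    | zero => exact ⟨0, rfl⟩
    | succ j => exact ⟨_, hs j⟩
  refine ⟨N, strictMono_nat_of_lt_succ fun j => ?_, fun j => ?_, fun j => ?_, fun j => ?_⟩
  · rw [hs]
    exact hG1 (j + 1) (N j)
  · obtain ⟨m, hm⟩ := hform j
    rw [hm]
    exact hG2 _ _
  · obtain ⟨m, hm⟩ := hform j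
    rw [hm]
    exact hG3 _ _
  · rw [hs]
    exact hG4 (j + 1) (N j)

section

variable {α f : ℕ → ℕ} {N : ℕ → ℕ}

theorem TT_congr (hN : Good α f N) {σ σ' : ℕ → Dt} {j : ℕ} (h : ∀ i < j, σ i = σ' i) :
    ∀ m < N j ^ 3, TT f N σ m = TT f N σ' m := by
  intro m hm
  have h1 : ∀ i k c, m = N i ^ 3 + k * N i + c → i < j := by
    intro i k c hi
    by_contra hcon
    push Not at hcon
    have h2 : N j ^ 3 ≤ N i ^ 3 := Nat.pow_le_pow_left (hN.mono.monotone hcon) 3
    omega
  unfold TT
  apply decide_eq_decide.2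
  constructor
  · rintro ⟨i, k, h2, h3⟩
    exact ⟨i, k, h2, by rw [← h i (h1 _ _ _ h3)]; exact h3⟩
  · rintro ⟨i, k, h2, h3⟩
    exact ⟨i, k, h2, by rw [h i (h1 _ _ _ h3)]; exact h3⟩

theorem ZZ_congr (hN : Good α f N) {σ σ' : ℕ → Dt} {j : ℕ} (h : ∀ i < j, σ i = σ' i) :
    ∀ a b, ∀ n < N j, ZZ N σ a b n = ZZ N σ' a b n := by
  intro a b n hn
  unfold ZZ
  apply decide_eq_decide.2
  refine forall_congr' fun i => ?_
  constructor
  · intro h1 h2
    rw [h2] at hn
    rw [← h i (hN.mono.lt_iff_lt.1 hn)]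
    exact h1 h2
  · intro h1 h2
    rw [h2] at hn
    rw [h i (hN.mono.lt_iff_lt.1 hn)]
    exact h1 h2

theorem wd_le (hf : ∀ n, f n ≤ n) (N : ℕ → ℕ) (j : ℕ) : 2 * wd f N j ≤ N j := by
  unfold wd
  have := hf (N j)
  omega

theorem block_bound {n w k r : ℕ} (hw : 2 * w ≤ n) (hk : k < w) (hr : r < n) :
    n ^ 3 + k * n + r < (n + 1) ^ 3 := by
  have h1 : k * n + n ≤ n * n := by
    calc k * n + n = (k + 1) * n := by ring
      _ ≤ n * n := Nat.mul_le_mul_right _ (by omega)
  have h2 : (n + 1) ^ 3 = n ^ 3 + 3 * (n * n) + 3 * n + 1 := by ring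
  rw [h2]
  nlinarith

theorem enc_tp (hf : ∀ n, f n ≤ n) (hN : Good α f N) {σ : ℕ → Dt}
    (hσ : ∀ j k, (σ j).1 k < N j) {i j : ℕ}
    (hi : N j ≤ i) : Enc (N j) (wd f N j) (σ j).1 (tp (TT f N σ) i) := by
  intro k hk r hr
  have h1 := block_bound (wd_le hf N j) hk hr
  have h2 : (N j + 1) ^ 3 ≤ (i + 1) ^ 3 := Nat.pow_le_pow_left (by omega) 3
  have hge := hN.ge
  unfold tp
  rw [List.getD_eq_getElem?_getD, List.getElem?_map, List.getElem?_range (by omega)]
  show TT f N σ (N j ^ 3 + k * N j + r) = _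
  unfold TT
  apply decide_eq_decide.2
  constructor
  · rintro ⟨j', k', h3, h4⟩
    have h5 := block_bound (wd_le hf N j') h3 (hσ j' k')
    have h6 : j' = j := by
      rcases lt_trichotomy j' j with h | h | h
      · have h7 : (N j' + 1) ^ 3 ≤ N j ^ 3 := Nat.pow_le_pow_left (hN.mono h) 3
        omega
      · exact h
      · have h7 : (N j + 1) ^ 3 ≤ N j' ^ 3 := Nat.pow_le_pow_left (hN.mono h) 3
        omega
    subst h6
    have h7 : k * N j' + r = k' * N j' + (σ j').1 k' := by omega
    have h8 := hσ j' k'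
    have h9 : k = k' := by
      have e1 : (k * N j' + r) / N j' = k := by
        rw [add_comm, Nat.add_mul_div_right _ _ (by omega), Nat.div_eq_of_lt hr]
        omega
      have e2 : (k' * N j' + (σ j').1 k') / N j' = k' := by
        rw [add_comm, Nat.add_mul_div_right _ _ (by omega), Nat.div_eq_of_lt h8]
        omega
      rw [← e1, h7, e2]
    subst h9
    omega
  · intro h3
    exact ⟨j, k, hk, by rw [h3]⟩

/-- the density of the tally set -/
theorem TT_dens (hN : Good α f N) (hf : Monotone f) (σ : ℕ → Dt) (n : ℕ) :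
    ((Finset.range (n + 1)).filter fun m => TT f N σ m = true).card ≤ f n := by
  classical
  have hsum : ∀ J, ∑ j ∈ Finset.range (J + 1), wd f N j ≤ f (N J) := by
    intro J
    induction J with
    | zero =>
      rw [Finset.sum_range_one]
      unfold wd
      omega
    | succ J ih =>
      rw [Finset.sum_range_succ]
      have h1 := hN.dbl J
      have h2 : wd f N (J + 1) = f (N (J + 1)) / 2 := rfl
      omega
  by_cases h0 : ∃ j, N j ≤ n
  · set J := Nat.findGreatest (fun j => N j ≤ n) n with hJ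
    have hJ1 : N J ≤ n := by
      obtain ⟨j, hj⟩ := h0
      have := hN.ge j
      exact Nat.findGreatest_spec (P := fun j => N j ≤ n) (m := j) (by omega) hj
    have hJ2 : ∀ j, N j ≤ n → j ≤ J := fun j hj => by
      have := hN.ge j
      exact Nat.le_findGreatest (by omega) hj
    have h1 : ((Finset.range (n + 1)).filter fun m => TT f N σ m = true) ⊆
        (Finset.range (J + 1)).biUnion fun j => (Finset.range (wd f N j)).image
          fun k => N j ^ 3 + k * N j + (σ j).1 k := by
      intro m hm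
      rw [Finset.mem_filter, Finset.mem_range] at hm
      obtain ⟨h2, h3⟩ := hm
      unfold TT at h3
      rw [decide_eq_true_eq] at h3
      obtain ⟨j, k, h4, h5⟩ := h3
      have h6 : N j ≤ N j ^ 3 := Nat.le_self_pow (by norm_num) _
      have h7 := hJ2 j (by omega)
      rw [Finset.mem_biUnion]
      refine ⟨j, Finset.mem_range.2 (by omega), ?_⟩
      rw [Finset.mem_image]
      exact ⟨k, Finset.mem_range.2 h4, h5.symm⟩
    refine (Finset.card_le_card h1).trans (Finset.card_biUnion_le.trans ?_)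
    refine (Finset.sum_le_sum fun j _ => Finset.card_image_le).trans ?_
    simp only [Finset.card_range]
    exact (hsum J).trans (hf hJ1)
  · push Not at h0
    have h1 : ((Finset.range (n + 1)).filter fun m => TT f N σ m = true) = ∅ := by
      rw [Finset.filter_eq_empty_iff]
      intro m hm h3
      rw [Finset.mem_range] at hm
      unfold TT at h3
      rw [decide_eq_true_eq] at h3
      obtain ⟨j, k, h4, h5⟩ := h3
      have h6 : N j ≤ N j ^ 3 := Nat.le_self_pow (by norm_num) _
      have := h0 j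
      omega
    rw [h1, Finset.card_empty]
    exact Nat.zero_le _

end

/-! ### Tally sets as advice -/

/-- short parts of the tally set suffice -/
theorem out_tally (M : Alg) (B : Oracle) {U U' : ℕ → Bool} {x : List Bool}
    (h : ∀ m < (qb M).eval x.length, U m = U' m) :
    M.out (join B (tally U)) x = M.out (join B (tally U')) x := by
  refine out_eq fun q hq => ?_
  match q with
  | [] => rfl
  | false :: v => rfl
  | true :: v =>
    show tally U v = tally U' v
    unfold tally
    rw [List.length_cons] at hq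
    rw [h _ (by omega)]

/-- the questions to the oracle -/
theorem qs_tally (M : Alg) (B : Oracle) (U : ℕ → Bool) (x : List Bool) :
    ∃ Q : Finset (List Bool), Q.card ≤ M.p.eval x.length ∧
      (∀ q ∈ Q, q.length ≤ (qb M).eval x.length) ∧
      ∀ B' : Oracle, (∀ q ∈ Q, B' q = B q) →
        M.out (join B' (tally U)) x = M.out (join B (tally U)) x := by
  classical
  obtain ⟨Q, h1, h2, h3⟩ := qb_spec M (join B (tally U)) x
  refine ⟨Q.image List.tail, Finset.card_image_le.trans h1, fun q hq => ?_, fun B' hB' => ?_⟩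
  · obtain ⟨v, hv, rfl⟩ := Finset.mem_image.1 hq
    rw [List.length_tail]
    exact (Nat.sub_le _ _).trans (h2 v hv)
  · refine h3 _ fun q hq => ?_
    match q, hq with
    | [], _ => rfl
    | true :: v, _ => rfl
    | false :: v, hq => exact hB' v (Finset.mem_image.2 ⟨_, hq, rfl⟩)

/-- the number of small subsets -/
theorem card_small (K u : ℕ) :
    ((Finset.range K).powerset.filter fun V => V.card ≤ u).card ≤ (K + 1) ^ u := by
  classical
  have h1 : ((Finset.range K).powerset.filter fun V => V.card ≤ u) ⊆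
      (Finset.univ : Finset (Fin u → Fin (K + 1))).image
        fun φ => (Finset.univ.image fun i => (φ i : ℕ)).filter fun m => m < K := by
    intro V hV
    rw [Finset.mem_filter, Finset.mem_powerset] at hV
    obtain ⟨h2, h3⟩ := hV
    rw [Finset.mem_image]
    set l := V.toList with hl
    have hlen : l.length ≤ u := by rw [hl, Finset.length_toList]; exact h3
    have hlt : ∀ i, l.getD i K < K + 1 := by
      intro i
      by_cases hi : i < l.length
      · rw [List.getD_eq_getElem _ _ hi]
        have h4 : l[i] ∈ V := Finset.mem_toList.1 (List.getElem_mem hi)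
        have h5 := Finset.mem_range.1 (h2 h4)
        omega
      · rw [List.getD_eq_default _ _ (by omega)]
        omega
    refine ⟨fun i => ⟨l.getD i K, hlt i⟩, Finset.mem_univ _, ?_⟩
    ext m
    rw [Finset.mem_filter, Finset.mem_image]
    constructor
    · rintro ⟨⟨i, -, h4⟩, h5⟩
      dsimp only at h4
      by_cases hi : (i : ℕ) < l.length
      · rw [List.getD_eq_getElem _ _ hi] at h4
        rw [← h4]
        exact Finset.mem_toList.1 (List.getElem_mem hi)
      · rw [List.getD_eq_default _ _ (by omega)] at h4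
        omega
    · intro hm
      have h4 : m ∈ l := Finset.mem_toList.2 hm
      obtain ⟨i, hi, h5⟩ := List.getElem_of_mem h4
      refine ⟨⟨⟨i, by omega⟩, Finset.mem_univ _, ?_⟩, Finset.mem_range.1 (h2 hm)⟩
      dsimp only
      rw [List.getD_eq_getElem _ _ hi, h5]
  refine (Finset.card_le_card h1).trans (Finset.card_image_le.trans ?_)
  rw [Finset.card_univ, Fintype.card_fun, Fintype.card_fin, Fintype.card_fin]

/-- what is required of the machine `a` at the stage `j` -/
structure OKt (en : ℕ → Alg) (cc f N : ℕ → ℕ) (j a : ℕ) : Prop where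
  lt : a < j
  cj : cc a ≤ j
  c1 : 1 ≤ cc a
  cw : 4 * (cc a + 4) ≤ wd f N j
  bd : ((en a).p + qb (en a)).eval (N j * N j + N j + a + 2) ≤ N j ^ cc a

/-- what is required at the stage `j` -/
def StT (en : ℕ → Alg) (cc f N : ℕ → ℕ) (j : ℕ) (B : Oracle) (s : Dt) : Prop :=
  (∀ k, s.1 k < N j) ∧
  ∀ a, OKt en cc f N j a → ∃ Q : Finset (List Bool), (∀ q ∈ Q, q.length ≤ N j ^ j) ∧
    (∀ q ∈ Q, ¬ KeyBy (N j) (wd f N j) s.1 q) ∧
    ∀ B' : Oracle, (∀ q ∈ Q, B' q = B q) → ∀ U : ℕ → Bool,
      ((Finset.range (N j ^ cc a)).filter fun m => U m = true).card * (8 * cc a) ≤ wd f N j →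
        ∃ b, ¬ ((en a).out (join B' (tally U)) (xs a b (N j)) = some [true] ↔ s.2 a b = true)

/-- one machine -/
theorem one_machine {α f : ℕ → ℕ} {N : ℕ → ℕ} (hf : ∀ n, f n ≤ n) (hN : Good α f N)
    {en : ℕ → Alg} {cc : ℕ → ℕ} {j a : ℕ} (ha : OKt en cc f N j a) (B : Oracle) :
    ∃ (Q : Finset (List Bool)) (z : ℕ → Bool), (∀ q ∈ Q, q.length ≤ N j ^ j) ∧
      Q.card ≤ N j ^ (wd f N j - 2) ∧
      ∀ B' : Oracle, (∀ q ∈ Q, B' q = B q) → ∀ U : ℕ → Bool,
        ((Finset.range (N j ^ cc a)).filter fun m => U m = true).card * (8 * cc a) ≤ wd f N j →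
          ∃ b, ¬ ((en a).out (join B' (tally U)) (xs a b (N j)) = some [true] ↔ z b = true) := by
  classical
  set n := N j with hn
  set w := wd f N j with hw
  set c := cc a with hc
  set M := en a with hM
  have hge := hN.ge j
  have hwn : 2 * w ≤ n := wd_le hf N j
  have hc1 : 1 ≤ c := ha.c1
  have hcw : 4 * (c + 4) ≤ w := ha.cw
  set u := w / (8 * c) with hu
  have hu8 : 8 * c * u ≤ w := Nat.mul_div_le _ _
  have hcu : 4 * ((c + 1) * u) ≤ w := by
    have h1 : (c + 1) * u ≤ (2 * c) * u := Nat.mul_le_mul_right _ (by omega)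
    have h2 : (2 * c) * u * 4 = 8 * c * u := by ring
    omega
  have hxl : ∀ b < n * n, (xs a b n).length ≤ n * n + n + a + 2 := by
    intro b hb
    rw [length_xs]
    omega
  have hbd : M.p.eval (n * n + n + a + 2) + (qb M).eval (n * n + n + a + 2) ≤ n ^ c := by
    have := ha.bd
    rwa [Polynomial.eval_add] at this
  have hp : ∀ b < n * n, M.p.eval (xs a b n).length ≤ n ^ c := fun b hb => by
    have h1 : M.p.eval (xs a b n).length ≤ M.p.eval (n * n + n + a + 2) := eval_mono _ (hxl b hb)
    omega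
  have hq : ∀ b < n * n, (qb M).eval (xs a b n).length ≤ n ^ c := fun b hb => by
    have h1 : (qb M).eval (xs a b n).length ≤ (qb M).eval (n * n + n + a + 2) :=
      eval_mono _ (hxl b hb)
    omega
  set UV : Finset ℕ → ℕ → Bool := fun V m => decide (m ∈ V) with hUV
  set cand := (Finset.range (n ^ c)).powerset.filter fun V => V.card ≤ u with hcand
  have hcard : cand.card ≤ n ^ ((c + 1) * u) := by
    refine (card_small _ _).trans ?_
    rw [pow_mul]
    refine Nat.pow_le_pow_left ?_ _
    rw [pow_succ]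
    have : 1 ≤ n ^ c := Nat.one_le_pow _ _ (by omega)
    nlinarith
  choose Q hQ1 hQ2 hQ3 using fun (V : Finset ℕ) (b : ℕ) => qs_tally M B (UV V) (xs a b n)
  -- the pattern
  have hz : ∃ z : Fin (n * n) → Bool, ∀ V ∈ cand, ∃ b : Fin (n * n),
      ¬ (M.out (join B (tally (UV V))) (xs a b n) = some [true] ↔ z b = true) := by
    by_contra hcon
    push Not at hcon
    choose V hV1 hV2 using hcon
    have hinj : Function.Injective V := by
      intro z z' h
      funext b
      have h1 := hV2 z b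
      have h2 := hV2 z' b
      rw [← h] at h2
      rw [Bool.eq_iff_iff]
      exact h1.symm.trans h2
    have h1 : (Finset.univ.image V).card ≤ cand.card := by
      refine Finset.card_le_card fun x hx => ?_
      obtain ⟨z, -, rfl⟩ := Finset.mem_image.1 hx
      exact hV1 z
    rw [Finset.card_image_of_injective _ hinj, Finset.card_univ, Fintype.card_fun,
      Fintype.card_fin, Fintype.card_bool] at h1
    have h2 : n ^ ((c + 1) * u) < 2 ^ (n * n) := by
      calc n ^ ((c + 1) * u) ≤ (2 ^ n) ^ ((c + 1) * u) :=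
            Nat.pow_le_pow_left Nat.lt_two_pow_self.le _
        _ = 2 ^ (n * ((c + 1) * u)) := by rw [← pow_mul]
        _ < 2 ^ (n * n) := Nat.pow_lt_pow_right (by norm_num)
            ((Nat.mul_lt_mul_left (by omega)).2 (by omega))
    omega
  obtain ⟨z, hz⟩ := hz
  refine ⟨cand.biUnion fun V => (Finset.range (n * n)).biUnion fun b => Q V b,
    fun b => if h : b < n * n then z ⟨b, h⟩ else false, ?_, ?_, ?_⟩
  · intro q hqq
    rw [Finset.mem_biUnion] at hqq
    obtain ⟨V, -, h1⟩ := hqq
    rw [Finset.mem_biUnion] at h1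
    obtain ⟨b, hb, h2⟩ := h1
    refine (hQ2 V b q h2).trans ((hq b (Finset.mem_range.1 hb)).trans ?_)
    exact Nat.pow_le_pow_right (by omega) ha.cj
  · have h1 : ∀ V ∈ cand, ((Finset.range (n * n)).biUnion fun b => Q V b).card ≤
        n * n * n ^ c := by
      intro V _
      have h2 := Finset.card_biUnion_le_card_mul (Finset.range (n * n)) (fun b => Q V b) (n ^ c)
        fun b hb => (hQ1 V b).trans (hp b (Finset.mem_range.1 hb))
      rwa [Finset.card_range] at h2
    refine (Finset.card_biUnion_le_card_mul _ _ _ h1).trans ?_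
    calc cand.card * (n * n * n ^ c) ≤ n ^ ((c + 1) * u) * (n * n * n ^ c) :=
          Nat.mul_le_mul_right _ hcard
      _ = n ^ ((c + 1) * u + (c + 2)) := by rw [pow_add, pow_add]; ring
      _ ≤ n ^ (w - 2) := Nat.pow_le_pow_right (by omega) (by omega)
  · intro B' hB' U hU
    set V := (Finset.range (n ^ c)).filter fun m => U m = true with hV
    have hVc : V ∈ cand := by
      rw [hcand, Finset.mem_filter, Finset.mem_powerset]
      refine ⟨Finset.filter_subset _ _, ?_⟩
      rw [hu, Nat.le_div_iff_mul_le (by omega)]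
      exact hU
    obtain ⟨b, hb⟩ := hz V hVc
    refine ⟨b, ?_⟩
    have h1 : M.out (join B' (tally U)) (xs a b n) = M.out (join B' (tally (UV V))) (xs a b n) := by
      refine out_tally M B' fun m hm => ?_
      have h2 := hq b b.2
      rw [hUV]
      dsimp only
      rw [Bool.eq_iff_iff, decide_eq_true_eq, hV, Finset.mem_filter, Finset.mem_range]
      constructor
      · exact fun h => ⟨by omega, h⟩
      · exact fun h => h.2
    have h2 : M.out (join B' (tally (UV V))) (xs a b n) =
        M.out (join B (tally (UV V))) (xs a b n) := by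
      refine hQ3 V b B' fun q hqq => hB' q ?_
      rw [Finset.mem_biUnion]
      refine ⟨V, hVc, ?_⟩
      rw [Finset.mem_biUnion]
      exact ⟨b, Finset.mem_range.2 b.2, hqq⟩
    rw [h1, h2]
    dsimp only
    rw [dif_pos b.2]
    exact hb

theorem exists_stage {α f : ℕ → ℕ} {N : ℕ → ℕ} (hf : ∀ n, f n ≤ n) (hN : Good α f N)
    (en : ℕ → Alg) (cc : ℕ → ℕ) (j : ℕ) (B : Oracle) : ∃ s : Dt, StT en cc f N j B s := by
  classical
  have h1 : ∀ a, ∃ (Q : Finset (List Bool)) (z : ℕ → Bool), OKt en cc f N j a →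
      (∀ q ∈ Q, q.length ≤ N j ^ j) ∧ Q.card ≤ N j ^ (wd f N j - 2) ∧
      ∀ B' : Oracle, (∀ q ∈ Q, B' q = B q) → ∀ U : ℕ → Bool,
        ((Finset.range (N j ^ cc a)).filter fun m => U m = true).card * (8 * cc a) ≤ wd f N j →
          ∃ b, ¬ ((en a).out (join B' (tally U)) (xs a b (N j)) = some [true] ↔ z b = true) := by
    intro a
    by_cases ha : OKt en cc f N j a
    · obtain ⟨Q, z, h2, h3, h4⟩ := one_machine hf hN ha B
      exact ⟨Q, z, fun _ => ⟨h2, h3, h4⟩⟩
    · exact ⟨∅, fun _ => true, fun h => absurd h ha⟩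
  choose Q z h2 using h1
  have hge := hN.ge j
  set P := (Finset.range j).filter fun a => OKt en cc f N j a with hP
  have hcard : (P.biUnion Q).card < N j ^ wd f N j := by
    rcases Finset.eq_empty_or_nonempty P with h3 | ⟨a, ha⟩
    · rw [h3, Finset.biUnion_empty, Finset.card_empty]
      exact Nat.pow_pos (by omega)
    · rw [hP, Finset.mem_filter] at ha
      have h4 := ha.2.cw
      have h5 : (P.biUnion Q).card ≤ P.card * N j ^ (wd f N j - 2) := by
        refine Finset.card_biUnion_le_card_mul _ _ _ fun q hq => ?_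
        rw [hP, Finset.mem_filter] at hq
        exact (h2 q hq.2).2.1
      have h6 : P.card ≤ N j := by
        refine (Finset.card_filter_le _ _).trans ?_
        rw [Finset.card_range]
        omega
      calc (P.biUnion Q).card ≤ P.card * N j ^ (wd f N j - 2) := h5
        _ ≤ N j * N j ^ (wd f N j - 2) := Nat.mul_le_mul_right _ h6
        _ = N j ^ (wd f N j - 2 + 1) := by rw [pow_succ, mul_comm]
        _ < N j ^ wd f N j := Nat.pow_lt_pow_right (by omega) (by omega)
  obtain ⟨c, hc1, hc2⟩ := exists_free (by omega) _ hcard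
  refine ⟨(c, z), hc1, fun a ha => ⟨Q a, (h2 a ha).1, fun q hq => hc2 q ?_, (h2 a ha).2.2⟩⟩
  rw [Finset.mem_biUnion]
  refine ⟨a, ?_, hq⟩
  rw [hP, Finset.mem_filter, Finset.mem_range]
  exact ⟨ha.lt, ha⟩

end Pool.Agent.J6H49.KT
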